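import Pool.Agent.Q35.ZC.Stm

/-!
Project ZC (helper35), job TAN: the tangent line at `P`.
-/

set_option autoImplicit false

open Polynomial Pool.Agent.Q35.ZC
open Pool.Agent.Y720.MZ hiding dq qp

namespace Pool.Agent.Q231.ZC.TAN

section

variable {F : Type} [Field F] [CharZero F]

theorem r1 (θ : F × (Fin 4 → F)) (hw : θ.1 ≠ 0) :
    4 * θ.1 ^ 2 * (tX θ + θ.2 1) = θ.2 0 ^ 2 := by
  unfold tX xs
  field_simp
  ring

theorem r2 (θ : F × (Fin 4 → F)) (hw : θ.1 ≠ 0) :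
    2 * θ.1 * tY θ = θ.2 0 * tX θ + 2 * θ.1 ^ 2 * θ.2 2 := by
  unfold tY ys tX
  field_simp

theorem df_eq (θ : F × (Fin 4 → F)) (hw : θ.1 ≠ 0) (l x' y' : F)
    (hy : y' = l * (x' - tX θ) + tY θ) :
    dq θ x' y' = (x' - tX θ) * (2 * θ.1 * l - θ.2 0) := by
  unfold dq Df
  rw [hy]
  linear_combination r2 θ hw

theorem nf_eq (θ : F × (Fin 4 → F)) (hw : θ.1 ≠ 0) (x' : F) :
    Nf θ.1 (θ.2 0) (θ.2 1) x' = 4 * θ.1 ^ 2 * (x' - tX θ) := by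
  unfold Nf
  linear_combination r1 θ hw

theorem key (θ : F × (Fin 4 → F)) (hw : θ.1 ≠ 0) (l : F)
    (hl : l * (2 * tY θ) = 3 * tX θ ^ 2 + 2 * tA θ * tX θ + tB θ) :
    tY θ * (2 * θ.1 * l - θ.2 0) = θ.1 * (tX θ ^ 2 - 4 * θ.1 ^ 2 * θ.2 3) := by
  have h1 := r1 θ hw
  have h2 := r2 θ hw
  unfold tA tB rb at hl
  have h3 : (2 * θ.1) * (tY θ * (2 * θ.1 * l - θ.2 0)) =
      (2 * θ.1) * (θ.1 * (tX θ ^ 2 - 4 * θ.1 ^ 2 * θ.2 3)) := by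
    linear_combination (2 * θ.1 ^ 2) * hl - θ.2 0 * h2 + tX θ * h1
  exact mul_left_cancel₀ (mul_ne_zero two_ne_zero hw) h3

theorem gp_sq (θ : F × (Fin 4 → F)) (hw : θ.1 ≠ 0) :
    gp θ (tX θ) ^ 2 - qp θ = C (-(tY θ / θ.1)) * X ^ 3 +
      C (tX θ ^ 2 / (4 * θ.1 ^ 2) - θ.2 3) * X ^ 4 := by
  have h1 := r1 θ hw
  have h2 := r2 θ hw
  have e0 : (-θ.1) ^ 2 = θ.1 ^ 2 := by ring
  have e1 : 2 * (-θ.1) * (-(θ.2 0) / (2 * θ.1)) = θ.2 0 := by field_simp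
  have e2 : (-(θ.2 0) / (2 * θ.1)) ^ 2 + 2 * (-θ.1) * (tX θ / (2 * θ.1)) = θ.2 1 := by
    have h3 : θ.2 0 ^ 2 / (4 * θ.1 ^ 2) = tX θ + θ.2 1 := by
      rw [← h1]; field_simp
    have h4 : (-(θ.2 0) / (2 * θ.1)) ^ 2 = θ.2 0 ^ 2 / (4 * θ.1 ^ 2) := by
      rw [div_pow]; ring
    rw [h4, h3]
    field_simp
    ring
  have e3 : 2 * (-(θ.2 0) / (2 * θ.1)) * (tX θ / (2 * θ.1)) = θ.2 2 - tY θ / θ.1 := by
    have h3 : tY θ / θ.1 = (θ.2 0 * tX θ + 2 * θ.1 ^ 2 * θ.2 2) / (2 * θ.1 ^ 2) := by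
      rw [← h2]; field_simp
    rw [h3]
    field_simp
    ring
  have e4 : (tX θ / (2 * θ.1)) ^ 2 = tX θ ^ 2 / (4 * θ.1 ^ 2) := by
    rw [div_pow]; ring
  have e : gp θ (tX θ) ^ 2 = C ((-θ.1) ^ 2) + C (2 * (-θ.1) * (-(θ.2 0) / (2 * θ.1))) * X +
      C ((-(θ.2 0) / (2 * θ.1)) ^ 2 + 2 * (-θ.1) * (tX θ / (2 * θ.1))) * X ^ 2 +
      C (2 * (-(θ.2 0) / (2 * θ.1)) * (tX θ / (2 * θ.1))) * X ^ 3 +
      C ((tX θ / (2 * θ.1)) ^ 2) * X ^ 4 := by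
    unfold gp
    generalize -θ.1 = a
    generalize -(θ.2 0) / (2 * θ.1) = b
    generalize tX θ / (2 * θ.1) = c
    simp only [map_add, map_mul, map_pow, map_ofNat]
    ring
  rw [e, e0, e1, e2, e3, e4]
  unfold qp
  simp only [map_sub, map_neg]
  ring

end

theorem tan : S_TAN := by
  intro F _ _ _ θ hw x' y' hP h' hY hx he
  have h2Y : 2 * tY θ ≠ 0 := mul_ne_zero two_ne_zero hY
  obtain ⟨l, hl⟩ : ∃ l : F, l * (2 * tY θ) = 3 * tX θ ^ 2 + 2 * tA θ * tX θ + tB θ :=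
    ⟨(3 * tX θ ^ 2 + 2 * tA θ * tX θ + tB θ) / (2 * tY θ), by field_simp⟩
  obtain ⟨h3, e3⟩ := dbl_mk hP h2Y hl
  rw [e3] at he
  obtain ⟨h4, e4⟩ := neg_mk h3
  rw [e4] at he
  have hxy := (WeierstrassCurve.Affine.Point.some.injEq _ _ _ _ _ _).mp he
  obtain ⟨ex, ey⟩ := hxy
  have hA : tA θ = θ.2 1 := rfl
  have hy' : y' = l * (x' - tX θ) + tY θ := by
    rw [← ey, ← ex]; ring
  have hD := df_eq θ hw l x' y' hy'
  have hN := nf_eq θ hw x'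
  have hk := key θ hw l hl
  have h1 := r1 θ hw
  have hx0 : x' - tX θ ≠ 0 := sub_ne_zero.2 hx
  have hm : 2 * θ.1 * l - θ.2 0 = 0 ↔ tX θ ^ 2 = 4 * θ.1 ^ 2 * θ.2 3 := by
    constructor
    · intro h
      rw [h, mul_zero] at hk
      have := (mul_eq_zero.1 hk.symm).resolve_left hw
      exact sub_eq_zero.1 this
    · intro h
      rw [h, sub_self, mul_zero] at hk
      exact (mul_eq_zero.1 hk).resolve_left hY
  refine ⟨?_, ?_, ?_⟩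
  · rw [hD, mul_eq_zero, or_iff_right hx0]
    exact hm
  · intro hne
    have hm0 : 2 * θ.1 * l - θ.2 0 ≠ 0 := fun h => hne (hm.1 h)
    obtain ⟨m, hmdef⟩ : ∃ m : F, m = 2 * θ.1 * l - θ.2 0 := ⟨_, rfl⟩
    rw [← hmdef] at hm0 hD hk
    have ht : tq θ x' y' = 4 * θ.1 ^ 2 / m := by
      have : tq θ x' y' = Nf θ.1 (θ.2 0) (θ.2 1) x' / dq θ x' y' := rfl
      rw [this, hN, hD]
      field_simp
    have hquad : 4 * θ.1 ^ 2 * (tX θ + x') - 2 * θ.2 0 * m = m ^ 2 := by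
      rw [← ex, hmdef, hA]
      linear_combination (-1 : F) * h1
    refine ⟨?_, tX θ ^ 2 / (4 * θ.1 ^ 2) - θ.2 3, ?_, ?_⟩
    · have hyq : yq θ x' y' = -θ.1 + tq θ x' y' * (tq θ x' y' * x' - θ.2 0) / (2 * θ.1) := rfl
      have hg : (gp θ (tX θ)).eval (tq θ x' y') = -θ.1 + -(θ.2 0) / (2 * θ.1) * tq θ x' y' +
          tX θ / (2 * θ.1) * tq θ x' y' ^ 2 := by
        simp [gp]
      rw [hg, hyq, ht]
      clear hmdef ex ey h1 hk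
      field_simp
      linear_combination 4 * hquad
    · intro h
      apply hne
      have h5 : tX θ ^ 2 / (4 * θ.1 ^ 2) = θ.2 3 := sub_eq_zero.1 h
      have h40 : (4 : F) * θ.1 ^ 2 ≠ 0 := mul_ne_zero (by norm_num) (pow_ne_zero 2 hw)
      rw [div_eq_iff h40] at h5
      linear_combination h5
    · rw [gp_sq θ hw, ht]
      have h6 : tY θ / θ.1 = (tX θ ^ 2 / (4 * θ.1 ^ 2) - θ.2 3) * (4 * θ.1 ^ 2 / m) := by
        field_simp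
        linear_combination hk
      rw [h6]
      simp only [map_neg, map_mul]
      ring
  · intro h
    refine ⟨-(tY θ / θ.1), neg_ne_zero.2 (div_ne_zero hY hw), ?_⟩
    rw [gp_sq θ hw]
    have h7 : tX θ ^ 2 / (4 * θ.1 ^ 2) - θ.2 3 = 0 := by
      rw [h]; field_simp; ring
    rw [h7]
    simp only [map_zero, zero_mul, add_zero]
    ring

end Pool.Agent.Q231.ZC.TAN
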